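import Pool.Agent.H78.TXB.LFGa

/-!
# Row LFG of txb_modules: values of a function on the fibres
-/

set_option autoImplicit false

open MvPolynomial
open Pool.Agent.H18.HIT Pool.Agent.H18.HX Pool.Agent.H18.VZ Pool.Agent.H18.TXB

namespace Pool.Agent.H78.TXB

section alg

variable {N : ℕ} {k K : Type} [Field k] [Field K] [Algebra k K]

/-- an equation of minimal degree divides every equation up to constants -/
theorem MinP.dvd {φ : Fin N → K} {l : K} {p : Polynomial (MvPolynomial (Fin N) k)}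
    (hp : MinP φ l p) (n : ℕ) : ∀ q : Polynomial (MvPolynomial (Fin N) k), q.natDegree ≤ n →
    psi φ l q = 0 → ∃ c : MvPolynomial (Fin N) k, c ≠ 0 ∧ p ∣ Polynomial.C c * q := by
  induction n using Nat.strong_induction_on with
  | _ n ih =>
    intro q hqn hq
    by_cases hq0 : q = 0
    · exact ⟨1, one_ne_zero, by rw [hq0, mul_zero]; exact dvd_zero _⟩
    have hE := hp.min q hq0 hq
    have hlp : p.leadingCoeff ≠ 0 := Polynomial.leadingCoeff_ne_zero.2 hp.ne
    have hlq : q.leadingCoeff ≠ 0 := Polynomial.leadingCoeff_ne_zero.2 hq0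
    obtain ⟨q', hq'⟩ : ∃ q', q' = Polynomial.C p.leadingCoeff * q -
      Polynomial.C q.leadingCoeff * Polynomial.X ^ (q.natDegree - p.natDegree) * p := ⟨_, rfl⟩
    have h1 : psi φ l q' = 0 := by
      rw [hq', map_sub, map_mul, map_mul, hq, hp.root, mul_zero, mul_zero, sub_zero]
    have h2 : ∃ c : MvPolynomial (Fin N) k, c ≠ 0 ∧ p ∣ Polynomial.C c * q' := by
      by_cases h3 : q' = 0
      · exact ⟨1, one_ne_zero, by rw [h3, mul_zero]; exact dvd_zero _⟩
      · have h4 : q'.degree < (Polynomial.C p.leadingCoeff * q).degree := by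
          rw [hq']
          refine Polynomial.degree_sub_lt_left ?_ ?_ ?_
          · rw [Polynomial.degree_C_mul hlp, Polynomial.degree_mul, Polynomial.degree_mul,
              Polynomial.degree_C hlq, Polynomial.degree_X_pow, zero_add,
              Polynomial.degree_eq_natDegree hq0, Polynomial.degree_eq_natDegree hp.ne]
            rw [← Nat.cast_add, Nat.sub_add_cancel hE]
          · exact mul_ne_zero (Polynomial.C_ne_zero.2 hlp) hq0
          · rw [Polynomial.leadingCoeff_mul, Polynomial.leadingCoeff_mul,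
              Polynomial.leadingCoeff_mul, Polynomial.leadingCoeff_C, Polynomial.leadingCoeff_C,
              Polynomial.leadingCoeff_X_pow, mul_one, mul_comm]
        rw [Polynomial.degree_C_mul hlp] at h4
        have h5 := Polynomial.natDegree_lt_natDegree h3 h4
        exact ih q'.natDegree (by omega) q' le_rfl h1
    obtain ⟨c, hc, hc'⟩ := h2
    refine ⟨c * p.leadingCoeff, mul_ne_zero hc hlp, ?_⟩
    have h3 : Polynomial.C (c * p.leadingCoeff) * q = Polynomial.C c * q' + Polynomial.C c *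
        (Polynomial.C q.leadingCoeff * Polynomial.X ^ (q.natDegree - p.natDegree)) * p := by
      rw [hq', map_mul]
      ring
    rw [h3]
    exact dvd_add hc' (dvd_mul_left _ _)

/-- an irreducible equation is minimal -/
theorem minP_of_irreducible {φ : Fin N → K} (hφ : AlgebraicIndependent k φ) {l : K}
    {Φ : Polynomial (MvPolynomial (Fin N) k)} (hirr : Irreducible Φ) (hr : psi φ l Φ = 0) :
    MinP φ l Φ := by
  have hinj : ∀ c : MvPolynomial (Fin N) k, aeval φ c = 0 → c = 0 :=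
    algebraicIndependent_iff.1 hφ
  obtain ⟨p, hp⟩ := exists_minP hφ ⟨Φ, hirr.ne_zero, hr⟩
  have hle : Φ.natDegree ≤ p.natDegree := by
    obtain ⟨c, hc, h, hh⟩ := hp.dvd Φ.natDegree Φ le_rfl hr
    have hpr : Prime Φ := hirr.prime
    have h1 : Φ ∣ p * h := ⟨Polynomial.C c, by rw [← hh, mul_comm]⟩
    rcases hpr.dvd_or_dvd h1 with h2 | ⟨h', h2⟩
    · exact Polynomial.natDegree_le_of_dvd h2 hp.ne
    · exfalso
      have h3 : Polynomial.C c = p * h' := by
        refine mul_right_cancel₀ hirr.ne_zero ?_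
        rw [hh, h2]
        ring
      have h4 : p.natDegree = 0 := by
        have h5 : h' ≠ 0 := by
          rintro rfl
          rw [mul_zero] at h3
          exact hc (Polynomial.C_eq_zero.1 h3)
        have h6 := congrArg Polynomial.natDegree h3
        rw [Polynomial.natDegree_C, Polynomial.natDegree_mul hp.ne h5] at h6
        omega
      rw [Polynomial.natDegree_eq_zero] at h4
      obtain ⟨a, ha⟩ := h4
      have h5 := hp.root
      rw [← ha, psi_C] at h5
      have h6 := hinj a h5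
      exact hp.ne (by rw [← ha, h6, Polynomial.C_0])
  refine ⟨hirr.ne_zero, hr, fun q hq hq' => hle.trans (hp.min q hq hq'), fun d hd => ?_⟩
  by_contra hcon
  push Not at hcon
  obtain ⟨h, hh⟩ := (Polynomial.C_dvd_iff_dvd_coeff d Φ).2 hcon
  rcases hirr.isUnit_or_isUnit hh with h1 | h1
  · exact hd.not_isUnit (Polynomial.isUnit_C.1 h1)
  · have h2 := Polynomial.natDegree_eq_zero_of_isUnit h1
    rw [Polynomial.natDegree_eq_zero] at h2
    obtain ⟨a, ha⟩ := h2
    have h3 := hr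
    rw [hh, ← ha, map_mul, psi_C, psi_C, ← map_mul] at h3
    have h4 := hinj _ h3
    exact hirr.ne_zero (by rw [hh, ← ha, ← Polynomial.C_mul, h4, Polynomial.C_0])

/-- algebraic elements -/
theorem alg_all {L : ℕ} {φ : Fin N → K} (π : MvPolynomial (Fin L) k →ₐ[k] K)
    (h : ∀ i, ∃ Q : Polynomial (MvPolynomial (Fin N) k), Q ≠ 0 ∧ psi φ (π (X i)) Q = 0)
    (f : MvPolynomial (Fin L) k) :
    (∃ Q : Polynomial (MvPolynomial (Fin N) k), Q ≠ 0 ∧ psi φ (π f) Q = 0) ∧
      ∃ Q : Polynomial (MvPolynomial (Fin N) k), Q ≠ 0 ∧ psi φ (π f)⁻¹ Q = 0 := by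
  letI : Algebra (MvPolynomial (Fin N) k) K :=
    (aeval φ : MvPolynomial (Fin N) k →ₐ[k] K).toRingHom.toAlgebra
  have key : ∀ x : K, IsAlgebraic (MvPolynomial (Fin N) k) x ↔
      ∃ Q : Polynomial (MvPolynomial (Fin N) k), Q ≠ 0 ∧ psi φ x Q = 0 := fun x => Iff.rfl
  have h1 : ∀ f : MvPolynomial (Fin L) k, IsAlgebraic (MvPolynomial (Fin N) k) (π f) := by
    intro f
    induction f using MvPolynomial.induction_on with
    | C a =>
      have e : π (C a) = algebraMap (MvPolynomial (Fin N) k) K (C a) := by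
        have e1 : π (C a) = algebraMap k K a := π.commutes a
        have e2 : algebraMap (MvPolynomial (Fin N) k) K (C a) = algebraMap k K a :=
          (aeval φ : MvPolynomial (Fin N) k →ₐ[k] K).commutes a
        rw [e1, e2]
      rw [e]
      exact isAlgebraic_algebraMap _
    | add f g hf hg =>
      rw [map_add]
      exact hf.add hg
    | mul_X f i hf =>
      rw [map_mul]
      exact hf.mul ((key _).2 (h i))
  exact ⟨(key _).1 (h1 f), (key _).1 (IsAlgebraic.inv_iff.2 (h1 f))⟩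

/-- equations with a common leading coefficient -/
theorem common {ι : Type} [Fintype ι] {φ : Fin N → K} (y : ι → K)
    (h : ∀ i, ∃ Q : Polynomial (MvPolynomial (Fin N) k), Q ≠ 0 ∧ psi φ (y i) Q = 0) :
    ∃ c : MvPolynomial (Fin N) k, c ≠ 0 ∧ ∀ i, ∃ q : Polynomial (MvPolynomial (Fin N) k),
      q.leadingCoeff = c ∧ psi φ (y i) q = 0 := by
  classical
  choose Q hQ hQ' using h
  refine ⟨∏ i, (Q i).leadingCoeff, Finset.prod_ne_zero_iff.2 fun i _ =>
    Polynomial.leadingCoeff_ne_zero.2 (hQ i), fun i => ?_⟩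
  refine ⟨Polynomial.C (∏ j ∈ Finset.univ.erase i, (Q j).leadingCoeff) * Q i, ?_, ?_⟩
  · rw [Polynomial.leadingCoeff_mul, Polynomial.leadingCoeff_C,
      Finset.prod_erase_mul _ _ (Finset.mem_univ i)]
  · rw [map_mul, hQ' i, mul_zero]

end alg

section main

variable {k : Type} [Field k]

/-- the polynomial with given coefficients -/
theorem lead_sum {N n : ℕ} (Cf : Fin (n + 1) → MvPolynomial (Fin N) k) (h0 : Cf 0 ≠ 0) :
    (∑ j : Fin (n + 1), Polynomial.C (Cf j) * Polynomial.X ^ (n - (j : ℕ))).leadingCoeff =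
      Cf 0 := by
  have h1 : (∑ j : Fin (n + 1), Polynomial.C (Cf j) *
      Polynomial.X ^ (n - (j : ℕ))).natDegree ≤ n := by
    refine Polynomial.natDegree_sum_le_of_forall_le _ _ fun j _ => ?_
    exact (Polynomial.natDegree_C_mul_X_pow_le _ _).trans (Nat.sub_le _ _)
  have h2 : (∑ j : Fin (n + 1), Polynomial.C (Cf j) *
      Polynomial.X ^ (n - (j : ℕ))).coeff n = Cf 0 := by
    rw [Polynomial.finset_sum_coeff, Finset.sum_eq_single 0]
    · rw [Polynomial.coeff_C_mul_X_pow]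
      simp
    · intro j _ hj
      rw [Polynomial.coeff_C_mul_X_pow, if_neg]
      have h3 : (j : ℕ) ≠ 0 := fun e => hj (Fin.ext e)
      have := j.2
      omega
    · intro h
      exact absurd (Finset.mem_univ _) h
  have h3 : (∑ j : Fin (n + 1), Polynomial.C (Cf j) *
      Polynomial.X ^ (n - (j : ℕ))).natDegree = n :=
    le_antisymm h1 (Polynomial.le_natDegree_of_ne_zero (by rw [h2]; exact h0))
  unfold Polynomial.leadingCoeff
  rw [h3, h2]

theorem psi_sum {K : Type} [Field K] [Algebra k K] {N n : ℕ} (φ : Fin N → K) (z : K)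
    (Cf : Fin (n + 1) → MvPolynomial (Fin N) k) :
    psi φ z (∑ j : Fin (n + 1), Polynomial.C (Cf j) * Polynomial.X ^ (n - (j : ℕ))) =
      ∑ j : Fin (n + 1), aeval φ (Cf j) * z ^ (n - (j : ℕ)) := by
  rw [map_sum]
  refine Finset.sum_congr rfl fun j _ => ?_
  rw [map_mul, map_pow, psi_C, psi_X]

theorem th_sum {N n : ℕ} (u : Fin N → k) (s : k) (Cf : Fin (n + 1) → MvPolynomial (Fin N) k) :
    th u s (∑ j : Fin (n + 1), Polynomial.C (Cf j) * Polynomial.X ^ (n - (j : ℕ))) =
      ∑ j : Fin (n + 1), eval u (Cf j) * s ^ (n - (j : ℕ)) := by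
  rw [map_sum]
  refine Finset.sum_congr rfl fun j _ => ?_
  rw [map_mul, map_pow, th_C, th_X]

/-- the theorem for a homomorphism to a field -/
theorem lfg_core [IsAlgClosed k] {K : Type} [Field K] [Algebra k K] {L N n : ℕ}
    (π : Po L k →ₐ[k] K) (g : Fin N → Po L k) (p q b : Po L k) (Cf : Fin (n + 1) → Po N k)
    (hg : ∀ c : Po N k, π (aeval g c) = 0 → c = 0)
    (hQ : ∀ i, ∃ Q : Polynomial (Po N k), Q ≠ 0 ∧ π (evg g (X i) Q) = 0) (hq : π q ≠ 0)
    (hb : π b ≠ 0) (h0 : Cf 0 ≠ 0)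
    (hirr : Irreducible (∑ j : Fin (n + 1), Polynomial.C (Cf j) * Polynomial.X ^ (n - (j : ℕ))))
    (hrel : π (∑ j : Fin (n + 1), aeval g (Cf j) * (p ^ (n - (j : ℕ)) * q ^ (j : ℕ))) = 0) :
    ∃ c : Po N k, c ≠ 0 ∧ ∀ y : Fin N → k, eval y c ≠ 0 → ∀ s : k,
      ∑ j : Fin (n + 1), eval y (Cf j) * s ^ (n - (j : ℕ)) = 0 →
      ∃ x : Fin L → k, (∀ f, π f = 0 → eval x f = 0) ∧ (∀ j, eval x (g j) = y j) ∧
        eval x q ≠ 0 ∧ eval x p = s * eval x q ∧ eval x b ≠ 0 := by
  classical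
  obtain ⟨φ, hφ⟩ : ∃ φ : Fin N → K, φ = fun j => π (g j) := ⟨_, rfl⟩
  have hcomp : ∀ c : Po N k, π (aeval g c) = aeval φ c := by
    intro c
    have h := MvPolynomial.comp_aeval (R := k) (f := g) π
    rw [hφ, ← h]
    rfl
  have hind : AlgebraicIndependent k φ := by
    rw [algebraicIndependent_iff]
    intro c hc
    exact hg c (by rw [hcomp, hc])
  have hevg : ∀ (θ : Po L k) (Q : Polynomial (Po N k)), π (evg g θ Q) = psi φ (π θ) Q := by
    intro θ Q
    unfold evg psi
    have h1 : π (Polynomial.eval₂ (aeval g : Po N k →ₐ[k] Po L k).toRingHom θ Q) =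
        Polynomial.eval₂ ((π : Po L k →+* K).comp (aeval g : Po N k →ₐ[k] Po L k).toRingHom)
          (π θ) Q := Polynomial.hom_eval₂ Q _ (π : Po L k →+* K) θ
    rw [h1, Polynomial.coe_eval₂RingHom]
    congr 1
    refine RingHom.ext fun c => ?_
    exact hcomp c
  obtain ⟨z, hz⟩ : ∃ z : K, z = π p / π q := ⟨_, rfl⟩
  obtain ⟨Φ, hΦ⟩ : ∃ Φ, Φ = ∑ j : Fin (n + 1), Polynomial.C (Cf j) *
    (Polynomial.X : Polynomial (Po N k)) ^ (n - (j : ℕ)) := ⟨_, rfl⟩
  have hroot : psi φ z Φ = 0 := by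
    have h1 : π q ^ n * psi φ z Φ = 0 := by
      rw [hΦ, psi_sum, Finset.mul_sum, ← hrel, map_sum]
      refine Finset.sum_congr rfl fun j _ => ?_
      have hj : (j : ℕ) ≤ n := by
        have := j.2
        omega
      rw [map_mul, map_mul, map_pow, map_pow, hcomp, hz, div_pow]
      have h2 : π q ^ n = π q ^ (n - (j : ℕ)) * π q ^ (j : ℕ) := by
        rw [← pow_add, Nat.sub_add_cancel hj]
      rw [h2]
      have h3 : π q ^ (n - (j : ℕ)) ≠ 0 := pow_ne_zero _ hq
      field_simp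
    exact (mul_eq_zero.1 h1).resolve_left (pow_ne_zero n hq)
  have hmin : MinP φ z Φ := minP_of_irreducible hind (by rw [hΦ]; exact hirr) hroot
  have hlead : Φ.leadingCoeff = Cf 0 := by rw [hΦ]; exact lead_sum Cf h0
  have hall : ∀ i, ∃ Q : Polynomial (MvPolynomial (Fin N) k), Q ≠ 0 ∧ psi φ (π (X i)) Q = 0 := by
    intro i
    obtain ⟨Q, hQ1, hQ2⟩ := hQ i
    exact ⟨Q, hQ1, by rw [← hevg]; exact hQ2⟩
  let yy : Fin L ⊕ (Unit ⊕ Unit) → K :=
    Sum.elim (fun i => π (X i)) (Sum.elim (fun _ => (π q)⁻¹) (fun _ => (π b)⁻¹))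
  have hyy : ∀ i, ∃ Q : Polynomial (MvPolynomial (Fin N) k), Q ≠ 0 ∧ psi φ (yy i) Q = 0 := by
    rintro (i | i | i)
    · exact hall i
    · exact (alg_all π hall q).2
    · exact (alg_all π hall b).2
  obtain ⟨c, hc, hc'⟩ := common yy hyy
  refine ⟨Cf 0 * c, mul_ne_zero h0 hc, fun u hu s hs => ?_⟩
  rw [map_mul] at hu
  have hu1 := left_ne_zero_of_mul hu
  have hu2 := right_ne_zero_of_mul hu
  obtain ⟨w, hw⟩ := exists_point hmin yy c hc' (u := u) (r := s) (by rw [hlead]; exact hu1) hu2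
    (by rw [hΦ, th_sum]; exact hs)
  -- substitution of the variables
  let ε : Po L k →ₐ[k] MvPolynomial (Fin N ⊕ Unit ⊕ (Fin L ⊕ (Unit ⊕ Unit))) k :=
    rename (fun i => Sum.inr (Sum.inr (Sum.inl i)))
  have he1 : ∀ f : Po L k, aeval (Sum.elim φ (Sum.elim (fun _ : Unit => z) yy)) (ε f) = π f := by
    intro f
    rw [aeval_rename]
    have h1 : (aeval ((Sum.elim φ (Sum.elim (fun _ : Unit => z) yy)) ∘
        fun i : Fin L => Sum.inr (Sum.inr (Sum.inl i))) : Po L k →ₐ[k] K) = π := by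
      apply MvPolynomial.algHom_ext
      intro i
      rw [aeval_X]
      rfl
    rw [h1]
  have he2 : ∀ f : Po L k, eval (Sum.elim u (Sum.elim (fun _ : Unit => s) w)) (ε f) =
      eval (fun i => w (Sum.inl i)) f := by
    intro f
    rw [eval_rename]
    rfl
  have hcq : eval (fun i => w (Sum.inl i)) q * w (Sum.inr (Sum.inl ())) = 1 := by
    have h1 := hw (ε q * X (Sum.inr (Sum.inr (Sum.inr (Sum.inl ())))) - 1) (by
      rw [map_sub, map_mul, he1, aeval_X, map_one]
      show π q * (π q)⁻¹ - 1 = 0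
      rw [mul_inv_cancel₀ hq, sub_self])
    rw [map_sub, map_mul, he2, eval_X, map_one] at h1
    exact sub_eq_zero.1 h1
  have hcb : eval (fun i => w (Sum.inl i)) b * w (Sum.inr (Sum.inr ())) = 1 := by
    have h1 := hw (ε b * X (Sum.inr (Sum.inr (Sum.inr (Sum.inr ())))) - 1) (by
      rw [map_sub, map_mul, he1, aeval_X, map_one]
      show π b * (π b)⁻¹ - 1 = 0
      rw [mul_inv_cancel₀ hb, sub_self])
    rw [map_sub, map_mul, he2, eval_X, map_one] at h1
    exact sub_eq_zero.1 h1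
  refine ⟨fun i => w (Sum.inl i), ?_, ?_, ?_, ?_, ?_⟩
  · intro f hf
    rw [← he2]
    exact hw _ (by rw [he1, hf])
  · intro j
    have h1 := hw (ε (g j) - X (Sum.inl j)) (by
      rw [map_sub, he1, aeval_X, Sum.elim_inl, hφ, sub_self])
    rw [map_sub, he2, eval_X, Sum.elim_inl] at h1
    exact sub_eq_zero.1 h1
  · intro h
    rw [h, zero_mul] at hcq
    exact zero_ne_one hcq
  · have h1 := hw (ε p - X (Sum.inr (Sum.inl ())) * ε q) (by
      rw [map_sub, map_mul, he1, he1, aeval_X, Sum.elim_inr, Sum.elim_inl, hz,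
        div_mul_cancel₀ _ hq, sub_self])
    rw [map_sub, map_mul, he2, he2, eval_X, Sum.elim_inr, Sum.elim_inl] at h1
    exact sub_eq_zero.1 h1
  · intro h
    rw [h, zero_mul] at hcb
    exact zero_ne_one hcb

end main

theorem pf_LFG : T_LFG := by
  intro L N n k _ _ _ I _ g p q b Cf hg hQ hq hb h0 hirr hrel
  let π : Po L k →ₐ[k] FractionRing (Po L k ⧸ I) :=
    (IsScalarTower.toAlgHom k (Po L k ⧸ I) (FractionRing (Po L k ⧸ I))).comp
      (Ideal.Quotient.mkₐ k I)
  have hπ : ∀ f, π f = 0 ↔ f ∈ I := by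
    intro f
    have h1 : π f = algebraMap (Po L k ⧸ I) (FractionRing (Po L k ⧸ I))
      (Ideal.Quotient.mk I f) := rfl
    rw [h1, ← Ideal.Quotient.eq_zero_iff_mem]
    exact map_eq_zero_iff _ (IsFractionRing.injective (Po L k ⧸ I) (FractionRing (Po L k ⧸ I)))
  obtain ⟨c, hc, hc'⟩ := lfg_core π g p q b Cf (fun c h => hg c ((hπ _).1 h))
    (fun i => by
      obtain ⟨Q, h1, h2⟩ := hQ i
      exact ⟨Q, h1, (hπ _).2 h2⟩) (fun h => hq ((hπ _).1 h)) (fun h => hb ((hπ _).1 h)) h0 hirr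
    ((hπ _).2 hrel)
  refine ⟨c, hc, fun y hy s hs => ?_⟩
  obtain ⟨x, h1, h2⟩ := hc' y hy s hs
  exact ⟨x, fun f hf => h1 f ((hπ _).2 hf), h2⟩

end Pool.Agent.H78.TXB
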