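import Pool.Agent.H18.TXB.Targets
import Pool.Agent.H72.BKH.LGV

/-!
# Row LGY of txb_modules: growth of the heights on a totally invariant curve, Galois averages

Port of `Pool.Agent.H72.BKH.LGV` (helper72) to five coordinates.
-/

set_option autoImplicit false

open MvPolynomial
open Pool.Agent.H12.ZD (pmap)
open Pool.Agent.H18.HIT Pool.Agent.H18.HX Pool.Agent.H18.VZ
open Pool.Agent.H8.ZA (HFam Const NA)
open Pool.Agent.H8.TX
open Pool.Agent.H18.TE (lg Gc T_GAL T_FIX)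
open Pool.Agent.H18.TXB
open Pool.Agent.H72.BKH (rh rh_apply tw tw_lg lg_mul lg_one lg_prod lg_av)

namespace Pool.Agent.H78.TXB.LGYx

variable {K : IntermediateField ℚ Qb}

/-- the average of the heights of the affine coordinates -/
noncomputable def av5 (F : HFam K) (Γ : Finset (Qb ≃ₐ[K] Qb)) (y : Fin 5 → Qb) : ℝ :=
  ∑ σ ∈ Γ, hn F (af fun i => σ (y i))

theorem tw_hn (F : HFam K) (τ : Qb ≃ₐ[K] Qb) (x : Fin 5 → Qb) :
    hn (tw F τ) x = hn F fun i => τ (x i) := rfl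

theorem af_map (τ : Qb ≃ₐ[K] Qb) (y : Fin 5 → Qb) :
    (fun i => τ (af y i)) = af fun i => τ (y i) := by
  funext i
  exact map_div₀ τ _ _

theorem avn_af (F : HFam K) (Γ : Finset (Qb ≃ₐ[K] Qb)) (y : Fin 5 → Qb) :
    avn F Γ (af y) = av5 F Γ y := by
  unfold avn av5
  refine Finset.sum_congr rfl fun σ _ => ?_
  rw [af_map]

theorem ev_map (τ : Qb ≃ₐ[K] Qb) (y : Fin 5 → Qb) (q : Po 5 Qb) :
    eval (fun i => τ (y i)) (map (rh τ) q) = τ (eval y q) := by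
  rw [eval_map]
  change _ = rh τ (eval₂ (RingHom.id Qb) y q)
  rw [eval₂_comp_left]
  rfl

theorem map_fix {q : Po 5 Qb} (hq : ∀ m, coeff m q ∈ K) (τ : Qb ≃ₐ[K] Qb) : map (rh τ) q = q := by
  ext m
  rw [coeff_map]
  exact τ.commutes ⟨coeff m q, hq m⟩

theorem coeff_K {q : Po 5 Qb} (hq : ∀ x ∈ q.coeffs, x ∈ K) (m : Fin 5 →₀ ℕ) : coeff m q ∈ K := by
  by_cases h : coeff m q = 0
  · rw [h]; exact K.zero_mem
  · exact hq _ (coeff_mem_coeffs m h)

theorem pmap_map {T : Tup 5 Qb} (hT : ∀ i m, coeff m (T i) ∈ K) (τ : Qb ≃ₐ[K] Qb)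
    (y : Fin 5 → Qb) : pmap T (fun i => τ (y i)) = fun i => τ (pmap T y i) := by
  funext i
  change eval (fun i => τ (y i)) (T i) = τ (eval y (T i))
  rw [← ev_map, map_fix (hT i)]

theorem iter_map {T : Tup 5 Qb} (hT : ∀ i m, coeff m (T i) ∈ K) (τ : Qb ≃ₐ[K] Qb) (n : ℕ)
    (y : Fin 5 → Qb) : (pmap T)^[n] (fun i => τ (y i)) = fun i => τ ((pmap T)^[n] y i) := by
  induction n generalizing y with
  | zero => rfl
  | succ n ih => rw [Function.iterate_succ_apply, pmap_map hT, ih, Function.iterate_succ_apply]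

theorem ev_mem {L : IntermediateField K Qb} {q : Po 5 Qb} (hq : ∀ m, coeff m q ∈ K)
    {y : Fin 5 → Qb} (hy : ∀ i, y i ∈ L) : eval y q ∈ L := by
  rw [eval_eq]
  apply sum_mem
  intro m _
  apply mul_mem
  · exact L.algebraMap_mem ⟨coeff m q, hq m⟩
  · exact prod_mem fun i _ => pow_mem (hy i) _

theorem iter_mem {L : IntermediateField K Qb} {T : Tup 5 Qb} (hT : ∀ i m, coeff m (T i) ∈ K)
    (n : ℕ) {y : Fin 5 → Qb} (hy : ∀ i, y i ∈ L) (i : Fin 5) : (pmap T)^[n] y i ∈ L := by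
  induction n generalizing y i with
  | zero => exact hy i
  | succ n ih =>
    rw [Function.iterate_succ_apply]
    exact ih (fun j => ev_mem (hT j) hy) i

/-- The norm of a polynomial has coefficients in the base field. -/
theorem norm_K (hFIX : T_FIX) {Θ : Finset (Qb ≃ₐ[K] Qb)} {L : IntermediateField K Qb}
    (hG : Gc K Θ L) {p : Po 5 Qb} (hp : ∀ m, coeff m p ∈ L) (m : Fin 5 →₀ ℕ) :
    coeff m (∏ θ ∈ Θ, map (rh θ) p) ∈ K := by
  apply hFIX
  intro τ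
  have h1 : map (rh τ) (∏ θ ∈ Θ, map (rh θ) p) = ∏ θ ∈ Θ, map (rh θ) p := by
    obtain ⟨π, hπ⟩ := hG.perm τ
    rw [map_prod, ← Finset.prod_coe_sort Θ (fun θ => map (rh τ) (map (rh θ) p)),
      ← Finset.prod_coe_sort Θ (fun θ => map (rh θ) p)]
    rw [← Equiv.prod_comp π (fun θ : Θ => map (rh (θ : Qb ≃ₐ[K] Qb)) p)]
    apply Finset.prod_congr rfl
    intro θ _
    ext m
    rw [coeff_map, coeff_map, coeff_map]
    exact hπ θ _ (hp m)
  have h2 := congrArg (coeff m) h1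
  rw [coeff_map] at h2
  exact h2

theorem hn_nonneg (F : HFam K) (w : Fin 5 → Qb) : 0 ≤ hn F w := by
  apply finsum_nonneg
  intro i
  refine Real.log_nonneg ?_
  unfold szn
  exact Finset.le_fold_max (s := Finset.univ) (f := fun j => F.abv i (w j)) (b := (1 : ℝ)) 1 |>.2
    (Or.inl le_rfl)

theorem av5_nonneg (F : HFam K) (Γ : Finset (Qb ≃ₐ[K] Qb)) (y : Fin 5 → Qb) : 0 ≤ av5 F Γ y :=
  Finset.sum_nonneg fun _ _ => hn_nonneg F _

/-- The points of the curve are stable under the automorphisms. -/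
theorem van_map {I : Ideal (Po 5 Qb)}
    (hIK : ∀ τ : Qb ≃ₐ[K] Qb, ∀ q ∈ I, map ((τ : Qb ≃+* Qb) : Qb →+* Qb) q ∈ I)
    {y : Fin 5 → Qb} (hy : ∀ q ∈ I, eval y q = 0) (τ : Qb ≃ₐ[K] Qb) :
    ∀ q ∈ I, eval (fun i => τ (y i)) q = 0 := by
  intro q hq
  have h1 : map (rh τ) (map (rh τ.symm) q) = q := by
    ext m
    rw [coeff_map, coeff_map]
    exact τ.apply_symm_apply _
  rw [← h1, ev_map, hy _ (hIK τ.symm q hq), map_zero]

/-- The local inequality for the conjugates. -/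
theorem loc_map (F : HFam K) {I : Ideal (Po 5 Qb)} {T : Tup 5 Qb} {n : ℕ} {p : Fin 5 → Po 5 Qb}
    {m' : Fin 5 → ℕ} {μ : Fin 5 → ℝ} {c : ℝ} (hT : ∀ i m, coeff m (T i) ∈ K)
    (hIK : ∀ τ : Qb ≃ₐ[K] Qb, ∀ q ∈ I, map ((τ : Qb ≃+* Qb) : Qb →+* Qb) q ∈ I)
    (τ : Qb ≃ₐ[K] Qb)
    (hc : ∀ y : Fin 5 → Qb, (∀ q ∈ I, eval y q = 0) → y 1 ≠ 0 → (pmap T)^[n] y 1 ≠ 0 →
      (∀ i, eval y (p i) ≠ 0) → 4 * hn (tw F τ) (af y) +
        ∑ i, μ i * (lg (tw F τ) (eval y (p i)) - m' i * lg (tw F τ) (y 1 * (pmap T)^[n] y 1)) ≤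
          hn (tw F τ) (af ((pmap T)^[n] y)) + c)
    (z : Fin 5 → Qb) (hz : ∀ q ∈ I, eval z q = 0) (hz0 : z 1 ≠ 0) (hTz : (pmap T)^[n] z 1 ≠ 0)
    (hpz : ∀ i, eval z (map (rh τ) (p i)) ≠ 0) :
    4 * hn F (af z) + ∑ i, μ i * (lg F (eval z (map (rh τ) (p i))) -
      m' i * lg F (z 1 * (pmap T)^[n] z 1)) ≤ hn F (af ((pmap T)^[n] z)) + c := by
  set y : Fin 5 → Qb := fun i => τ.symm (z i) with hy
  have hzy : z = fun i => τ (y i) := by
    funext i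
    exact (τ.apply_symm_apply _).symm
  have hit : (pmap T)^[n] z = fun i => τ ((pmap T)^[n] y i) := by
    rw [hzy, iter_map hT]
  have h1 := hc y (van_map hIK hz τ.symm) (by
      intro h
      apply hz0
      rw [hzy]
      simp [h]) (by
      intro h
      apply hTz
      rw [hit]
      simp [h]) (by
      intro i h
      apply hpz i
      rw [hzy, ev_map, h, map_zero])
  have e1 : hn (tw F τ) (af y) = hn F (af z) := by
    rw [tw_hn, af_map, ← hzy]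
  have e2 : hn (tw F τ) (af ((pmap T)^[n] y)) = hn F (af ((pmap T)^[n] z)) := by
    rw [tw_hn, af_map, ← hit]
  have e3 : ∀ i, lg (tw F τ) (eval y (p i)) = lg F (eval z (map (rh τ) (p i))) := by
    intro i
    rw [tw_lg, ← ev_map, ← hzy]
  have e4 : lg (tw F τ) (y 1 * (pmap T)^[n] y 1) = lg F (z 1 * (pmap T)^[n] z 1) := by
    rw [tw_lg, map_mul, hit]
    congr 2
    rw [hzy]
  rw [e1, e2, e4] at h1
  simp only [e3] at h1
  exact h1

/-- growth of the heights on a totally invariant curve -/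
theorem pf_LGY (hLLY : T_LLY) (hBDY : T_BDY) (hGAL : T_GAL) (hFIX : T_FIX) : T_LGY := by
  intro P₀ θ Δ I T D E S S' hI hD hT hhom hX1 hPm hPI0 hinv hbas hΔ hdeg hindep hS hS' hS0 hS0' hrel
  obtain ⟨n, p, D', m', μ, hn1, hph, hpI, hloc⟩ := hLLY P₀ θ Δ I T D E S S' hI hD hT hhom hX1 hPm hPI0
    hinv hbas hΔ hdeg hindep hS hS' hS0 hS0' hrel
  refine ⟨n, hn1, ?_⟩
  intro K F hTK hIK
  have hTK' : ∀ i m, coeff m (T i) ∈ K := fun i => coeff_K (hTK i)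
  classical
  obtain ⟨Θ, L₀, hL₀, hΘ⟩ := hGAL K (Finset.univ.biUnion fun i => (p i).coeffs)
  have hpL : ∀ i m, coeff m (p i) ∈ L₀ := by
    intro i m
    by_cases h : coeff m (p i) = 0
    · rw [h]; exact L₀.zero_mem
    · apply hL₀
      rw [Finset.mem_biUnion]
      exact ⟨i, Finset.mem_univ i, coeff_mem_coeffs m h⟩
  obtain ⟨P, hP⟩ : ∃ P : Fin 5 → Po 5 Qb, P = fun i => ∏ ϑ ∈ Θ, map (rh ϑ) (p i) := ⟨_, rfl⟩
  have hPK : ∀ i m, coeff m (P i) ∈ K := fun i m => by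
    rw [hP]
    exact norm_K hFIX hΘ (hpL i) m
  have hPh : ∀ i, (P i).IsHomogeneous (∑ ϑ ∈ Θ, D' i) := by
    intro i
    rw [hP]
    exact IsHomogeneous.prod Θ _ _ fun ϑ _ => (hph i).map _
  have hPI : ∀ i, P i ∉ I := by
    intro i h
    rw [hP] at h
    obtain ⟨τ, -, hm⟩ := (Ideal.IsPrime.prod_mem_iff (hp := hI)).mp h
    apply hpI i
    have h1 := hIK τ.symm _ hm
    have h2 : map (rh τ.symm) (map (rh τ) (p i)) = p i := by
      ext m
      rw [coeff_map, coeff_map]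
      exact τ.symm_apply_apply _
    change map (rh τ.symm) (map (rh τ) (p i)) ∈ I at h1
    rwa [h2] at h1
  have hfin := fun i => hBDY I P₀ (P i) S S' _ hI hhom hX1 hPm hPI0
    (hPh i) (hPI i) hS hS' hS0 hS0' hrel
  have hbd : ∀ i, ∃ b : ℝ, ∀ y : Fin 5 → Qb, (∀ q ∈ I, eval y q = 0) → y 1 ≠ 0 →
      eval y (P i) = 0 → hn F (af y) ≤ b := by
    intro i
    obtain ⟨b, hb⟩ := ((hfin i).image (hn F)).bddAbove
    refine ⟨b, fun y h1 h2 h3 => hb ⟨af y, ⟨y, h1, h2, h3, rfl⟩, rfl⟩⟩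
  choose b hb using hbd
  choose c hc using fun τ : Qb ≃ₐ[K] Qb => hloc K (tw F τ)
  refine ⟨2 * ∑ i, |b i| + |∑ τ ∈ Θ, c τ|, ?_⟩
  intro Γ L hΓ y hyL hyI hy0 hTy0
  rw [avn_af, avn_af]
  have hcard : (0 : ℝ) ≤ (Γ.card : ℝ) := Nat.cast_nonneg _
  have hav := av5_nonneg F Γ y
  have hav' := av5_nonneg F Γ ((pmap T)^[n] y)
  have hb0 : 0 ≤ ∑ i, |b i| := Finset.sum_nonneg fun i _ => abs_nonneg _
  by_cases hz : ∃ i, eval y (P i) = 0
  · obtain ⟨i, hi⟩ := hz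
    have h1 : av5 F Γ y ≤ Γ.card * ∑ i, |b i| := by
      unfold av5
      rw [← nsmul_eq_mul]
      apply Finset.sum_le_card_nsmul
      intro σ _
      have h2 := hb i (fun j => σ (y j)) (van_map hIK hyI σ) (by simpa using hy0) (by
        have h3 := ev_map σ y (P i)
        rw [map_fix (hPK i), hi, map_zero] at h3
        exact h3)
      exact h2.trans ((le_abs_self _).trans
        (Finset.single_le_sum (f := fun i => |b i|) (fun j _ => abs_nonneg _)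
          (Finset.mem_univ i)))
    have h2 : 0 ≤ (Γ.card : ℝ) * |∑ τ ∈ Θ, c τ| := mul_nonneg hcard (abs_nonneg _)
    have h3 : (Γ.card : ℝ) * (2 * ∑ i, |b i| + |∑ τ ∈ Θ, c τ|) =
        2 * ((Γ.card : ℝ) * ∑ i, |b i|) + (Γ.card : ℝ) * |∑ τ ∈ Θ, c τ| := by ring
    rw [h3]
    linarith
  · push Not at hz
    have hPz : ∀ (σ : Qb ≃ₐ[K] Qb) (i : Fin 5),
        eval (fun j => σ (y j)) (P i) = σ (eval y (P i)) := by
      intro σ i
      have h3 := ev_map σ y (P i)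
      rwa [map_fix (hPK i)] at h3
    have hPprod : ∀ (σ : Qb ≃ₐ[K] Qb) (i : Fin 5), eval (fun j => σ (y j)) (P i) =
        ∏ ϑ ∈ Θ, eval (fun j => σ (y j)) (map (rh ϑ) (p i)) := by
      intro σ i
      rw [hP]
      simp only
      rw [map_prod]
    have hfac : ∀ (σ : Qb ≃ₐ[K] Qb) (i : Fin 5), ∀ ϑ ∈ Θ,
        eval (fun j => σ (y j)) (map (rh ϑ) (p i)) ≠ 0 := by
      intro σ i ϑ hϑ
      have h3 : eval (fun j => σ (y j)) (P i) ≠ 0 := by
        rw [hPz]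
        simpa using hz i
      rw [hPprod] at h3
      exact Finset.prod_ne_zero_iff.mp h3 ϑ hϑ
    obtain ⟨u, hu⟩ : ∃ u, u = y 1 * (pmap T)^[n] y 1 := ⟨_, rfl⟩
    have hu0 : u ≠ 0 := by rw [hu]; exact mul_ne_zero hy0 hTy0
    have huL : u ∈ L := by
      rw [hu]
      exact mul_mem (hyL 1) (iter_mem hTK' n hyL 1)
    have hl : ∀ σ ∈ Γ, ∀ ϑ ∈ Θ, 4 * hn F (af fun j => σ (y j)) +
        ∑ i, μ i * (lg F (eval (fun j => σ (y j)) (map (rh ϑ) (p i))) - m' i * lg F (σ u)) ≤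
        hn F (af fun j => σ ((pmap T)^[n] y j)) + c ϑ := by
      intro σ _ ϑ hϑ
      have h1 := loc_map F hTK' hIK ϑ (hc ϑ) (fun j => σ (y j)) (van_map hIK hyI σ)
        (by simpa using hy0) (by
          rw [iter_map hTK']
          simpa using hTy0) fun i => hfac σ i ϑ hϑ
      rw [iter_map hTK'] at h1
      rw [hu, map_mul]
      exact h1
    have hsum : ∑ σ ∈ Γ, ∑ ϑ ∈ Θ, (4 * hn F (af fun j => σ (y j)) +
        ∑ i, μ i * (lg F (eval (fun j => σ (y j)) (map (rh ϑ) (p i))) - m' i * lg F (σ u))) ≤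
        ∑ σ ∈ Γ, ∑ ϑ ∈ Θ, (hn F (af fun j => σ ((pmap T)^[n] y j)) + c ϑ) :=
      Finset.sum_le_sum fun σ hσ => Finset.sum_le_sum fun ϑ hϑ => hl σ hσ ϑ hϑ
    have hr : ∑ σ ∈ Γ, ∑ ϑ ∈ Θ, (hn F (af fun j => σ ((pmap T)^[n] y j)) + c ϑ) =
        Θ.card * av5 F Γ ((pmap T)^[n] y) + Γ.card * ∑ ϑ ∈ Θ, c ϑ := by
      unfold av5
      simp only [Finset.sum_add_distrib, Finset.sum_const, nsmul_eq_mul]
      rw [← Finset.mul_sum]
    have hlg1 : ∀ i, ∑ σ ∈ Γ, ∑ ϑ ∈ Θ, lg F (eval (fun j => σ (y j)) (map (rh ϑ) (p i))) = 0 := by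
      intro i
      have h1 : ∀ σ ∈ Γ, ∑ ϑ ∈ Θ, lg F (eval (fun j => σ (y j)) (map (rh ϑ) (p i))) =
          lg F (σ (eval y (P i))) := by
        intro σ _
        rw [← hPz, hPprod, lg_prod F Θ _ (hfac σ i)]
      rw [Finset.sum_congr rfl h1]
      exact lg_av hFIX F hΓ (ev_mem (hPK i) hyL) (hz i)
    have hlg2 : ∑ σ ∈ Γ, lg F (σ u) = 0 := lg_av hFIX F hΓ huL hu0
    have hll : ∑ σ ∈ Γ, ∑ ϑ ∈ Θ, (4 * hn F (af fun j => σ (y j)) +
        ∑ i, μ i * (lg F (eval (fun j => σ (y j)) (map (rh ϑ) (p i))) - m' i * lg F (σ u))) =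
        Θ.card * (4 * av5 F Γ y) := by
      have h1 : ∑ σ ∈ Γ, ∑ ϑ ∈ Θ, ∑ i, μ i *
          (lg F (eval (fun j => σ (y j)) (map (rh ϑ) (p i))) - m' i * lg F (σ u)) =
          ∑ i, μ i * (∑ σ ∈ Γ, ∑ ϑ ∈ Θ, lg F (eval (fun j => σ (y j)) (map (rh ϑ) (p i))) -
            m' i * (Θ.card * ∑ σ ∈ Γ, lg F (σ u))) := by
        have h2 : ∀ σ ∈ Γ, ∑ ϑ ∈ Θ, ∑ i, μ i *
            (lg F (eval (fun j => σ (y j)) (map (rh ϑ) (p i))) - m' i * lg F (σ u)) =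
            ∑ i, μ i * (∑ ϑ ∈ Θ, lg F (eval (fun j => σ (y j)) (map (rh ϑ) (p i))) -
              m' i * (Θ.card * lg F (σ u))) := by
          intro σ _
          rw [Finset.sum_comm]
          apply Finset.sum_congr rfl
          intro i _
          rw [← Finset.mul_sum, Finset.sum_sub_distrib, Finset.sum_const, nsmul_eq_mul]
          ring
        rw [Finset.sum_congr rfl h2, Finset.sum_comm]
        apply Finset.sum_congr rfl
        intro i _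
        rw [← Finset.mul_sum, Finset.sum_sub_distrib, ← Finset.mul_sum, ← Finset.mul_sum]
      simp only [Finset.sum_add_distrib]
      rw [h1]
      simp only [hlg1, hlg2, mul_zero, sub_zero, Finset.sum_const_zero, add_zero]
      unfold av5
      simp only [Finset.sum_const, nsmul_eq_mul]
      rw [← Finset.mul_sum, ← Finset.mul_sum]
    rw [hll, hr] at hsum
    have hΘ1 : (1 : ℝ) ≤ (Θ.card : ℝ) := by
      exact_mod_cast Finset.card_pos.mpr hΘ.ne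
    have h5 : (Γ.card : ℝ) * ∑ ϑ ∈ Θ, c ϑ ≤ Γ.card * |∑ ϑ ∈ Θ, c ϑ| :=
      mul_le_mul_of_nonneg_left (le_abs_self _) hcard
    have h6 : 4 * av5 F Γ y - av5 F Γ ((pmap T)^[n] y) ≤ Γ.card * |∑ ϑ ∈ Θ, c ϑ| := by
      rcases le_total (4 * av5 F Γ y - av5 F Γ ((pmap T)^[n] y)) 0 with h7 | h7
      · exact h7.trans (mul_nonneg hcard (abs_nonneg _))
      · have h8 := mul_le_mul_of_nonneg_right hΘ1 h7
        linarith
    have h7 : (Γ.card : ℝ) * (2 * ∑ i, |b i| + |∑ τ ∈ Θ, c τ|) =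
        2 * ((Γ.card : ℝ) * ∑ i, |b i|) + (Γ.card : ℝ) * |∑ τ ∈ Θ, c τ| := by ring
    have h8 : 0 ≤ (Γ.card : ℝ) * ∑ i, |b i| := mul_nonneg hcard hb0
    rw [h7]
    linarith

end Pool.Agent.H78.TXB.LGYx

namespace Pool.Agent.H78.TXB

theorem pf_LGY (hLLY : T_LLY) (hBDY : T_BDY) (hGAL : T_GAL) (hFIX : T_FIX) : T_LGY :=
  LGYx.pf_LGY hLLY hBDY hGAL hFIX

end Pool.Agent.H78.TXB
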