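import Pool.Agent.H18.TXB.Targets
import Pool.Agent.H4.BKH.CHRa

/-!
# Row LFG of txb_modules: values of a function on the fibres

The first part is the generalization of `Pool.Agent.H4.BKH.CHRa` to `N` variables.
-/

set_option autoImplicit false

open MvPolynomial
open Pool.Agent.H18.HIT Pool.Agent.H18.HX Pool.Agent.H18.VZ Pool.Agent.H18.TXB

namespace Pool.Agent.H78.TXB

section alg

variable {N : ℕ} {k K : Type} [Field k] [Field K] [Algebra k K]

/-- the value `p(φ, l)` -/
noncomputable def psi (φ : Fin N → K) (l : K) : Polynomial (MvPolynomial (Fin N) k) →+* K :=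
  Polynomial.eval₂RingHom (aeval φ : MvPolynomial (Fin N) k →ₐ[k] K).toRingHom l

/-- the value `p(u, r)` -/
noncomputable def th (u : Fin N → k) (r : k) : Polynomial (MvPolynomial (Fin N) k) →+* k :=
  Polynomial.eval₂RingHom (eval u) r

theorem psi_C (φ : Fin N → K) (l : K) (c : MvPolynomial (Fin N) k) :
    psi φ l (Polynomial.C c) = aeval φ c := by
  unfold psi
  rw [Polynomial.coe_eval₂RingHom, Polynomial.eval₂_C]
  rfl

theorem psi_X (φ : Fin N → K) (l : K) :
    psi φ l (Polynomial.X : Polynomial (MvPolynomial (Fin N) k)) = l := by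
  unfold psi
  rw [Polynomial.coe_eval₂RingHom, Polynomial.eval₂_X]

theorem th_C (u : Fin N → k) (r : k) (c : MvPolynomial (Fin N) k) :
    th u r (Polynomial.C c) = eval u c := by
  unfold th
  rw [Polynomial.coe_eval₂RingHom, Polynomial.eval₂_C]

theorem th_X (u : Fin N → k) (r : k) :
    th u r (Polynomial.X : Polynomial (MvPolynomial (Fin N) k)) = r := by
  unfold th
  rw [Polynomial.coe_eval₂RingHom, Polynomial.eval₂_X]

/-- `p` is a primitive equation of `l` of minimal degree -/
structure MinP (φ : Fin N → K) (l : K) (p : Polynomial (MvPolynomial (Fin N) k)) : Prop where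
  ne : p ≠ 0
  root : psi φ l p = 0
  min : ∀ q : Polynomial (MvPolynomial (Fin N) k), q ≠ 0 → psi φ l q = 0 →
    p.natDegree ≤ q.natDegree
  cop : ∀ d : MvPolynomial (Fin N) k, Irreducible d → ∃ j, ¬ d ∣ p.coeff j

theorem exists_minP {φ : Fin N → K} (hφ : AlgebraicIndependent k φ) {l : K}
    (hex : ∃ p : Polynomial (MvPolynomial (Fin N) k), p ≠ 0 ∧ psi φ l p = 0) :
    ∃ p : Polynomial (MvPolynomial (Fin N) k), MinP φ l p := by
  classical
  have h1 : ∃ n : ℕ, ∃ p : Polynomial (MvPolynomial (Fin N) k), p ≠ 0 ∧ psi φ l p = 0 ∧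
      p.natDegree = n := by
    obtain ⟨p, hp, hp'⟩ := hex
    exact ⟨_, p, hp, hp', rfl⟩
  obtain ⟨E, hE, hEm⟩ : ∃ E, (∃ p : Polynomial (MvPolynomial (Fin N) k), p ≠ 0 ∧
      psi φ l p = 0 ∧ p.natDegree = E) ∧ ∀ q : Polynomial (MvPolynomial (Fin N) k), q ≠ 0 →
      psi φ l q = 0 → E ≤ q.natDegree :=
    ⟨Nat.find h1, Nat.find_spec h1, fun q hq hq' => Nat.find_min' h1 ⟨q, hq, hq', rfl⟩⟩
  have h2 : ∃ t : ℕ, ∃ p : Polynomial (MvPolynomial (Fin N) k), p ≠ 0 ∧ psi φ l p = 0 ∧
      p.natDegree = E ∧ p.leadingCoeff.totalDegree = t := by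
    obtain ⟨p, hp, hp', hp''⟩ := hE
    exact ⟨_, p, hp, hp', hp'', rfl⟩
  obtain ⟨t, ⟨p, hp, hp', hp'', ht⟩, htm⟩ : ∃ t, (∃ p : Polynomial (MvPolynomial (Fin N) k),
      p ≠ 0 ∧ psi φ l p = 0 ∧ p.natDegree = E ∧ p.leadingCoeff.totalDegree = t) ∧
      ∀ q : Polynomial (MvPolynomial (Fin N) k), q ≠ 0 → psi φ l q = 0 → q.natDegree = E →
      t ≤ q.leadingCoeff.totalDegree :=
    ⟨Nat.find h2, Nat.find_spec h2, fun q hq hq' hq'' =>
      Nat.find_min' h2 ⟨q, hq, hq', hq'', rfl⟩⟩
  refine ⟨p, hp, hp', fun q hq hq' => hp''.le.trans (hEm q hq hq'), fun d hd => ?_⟩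
  by_contra hcon
  push Not at hcon
  obtain ⟨p', hpp⟩ := (Polynomial.C_dvd_iff_dvd_coeff d p).2 hcon
  have hd0 : d ≠ 0 := hd.ne_zero
  have hp0 : p' ≠ 0 := by
    rintro rfl
    exact hp (by rw [hpp, mul_zero])
  have hr : psi φ l p' = 0 := by
    rw [hpp, map_mul, psi_C] at hp'
    rcases mul_eq_zero.1 hp' with h | h
    · exfalso
      rw [algebraicIndependent_iff_injective_aeval] at hφ
      exact hd0 ((map_eq_zero_iff _ hφ).1 h)
    · exact h
  have hn : p'.natDegree = E := by
    rw [hpp, Polynomial.natDegree_C_mul hd0] at hp''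
    exact hp''
  have h3 := htm p' hp0 hr hn
  have h4 : p.leadingCoeff = d * p'.leadingCoeff := by
    rw [hpp, Polynomial.leadingCoeff_mul, Polynomial.leadingCoeff_C]
  have h5 : p.leadingCoeff.totalDegree = d.totalDegree + p'.leadingCoeff.totalDegree := by
    rw [h4, totalDegree_mul_of_isDomain hd0 (Polynomial.leadingCoeff_ne_zero.2 hp0)]
  have h6 : d.totalDegree = 0 := by omega
  rw [totalDegree_eq_zero_iff_eq_C] at h6
  refine hd.not_isUnit ?_
  rw [h6]
  refine (isUnit_iff_ne_zero.2 fun h => hd0 ?_).map C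
  rw [h6, h, C_0]

/-- all equations of `l` hold at a point of the hypersurface of the minimal equation -/
theorem MinP.ker {φ : Fin N → K} {l : K} {p : Polynomial (MvPolynomial (Fin N) k)}
    (hp : MinP φ l p) {u : Fin N → k} {r : k} (h0 : eval u p.leadingCoeff ≠ 0)
    (hr : th u r p = 0) (n : ℕ) : ∀ q : Polynomial (MvPolynomial (Fin N) k), q.natDegree ≤ n →
    psi φ l q = 0 → th u r q = 0 := by
  induction n using Nat.strong_induction_on with
  | _ n ih =>
    intro q hqn hq
    by_cases hq0 : q = 0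
    · rw [hq0, map_zero]
    have hE := hp.min q hq0 hq
    set q' := Polynomial.C p.leadingCoeff * q -
      Polynomial.C q.leadingCoeff * Polynomial.X ^ (q.natDegree - p.natDegree) * p with hq'
    have h1 : psi φ l q' = 0 := by
      rw [hq', map_sub, map_mul, map_mul, hq, hp.root, mul_zero, mul_zero, sub_zero]
    have hlp : p.leadingCoeff ≠ 0 := Polynomial.leadingCoeff_ne_zero.2 hp.ne
    have hlq : q.leadingCoeff ≠ 0 := Polynomial.leadingCoeff_ne_zero.2 hq0
    have h2 : th u r q' = 0 := by
      by_cases h3 : q' = 0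
      · rw [h3, map_zero]
      · have h4 : q'.degree < (Polynomial.C p.leadingCoeff * q).degree := by
          refine Polynomial.degree_sub_lt ?_ ?_ ?_
          · rw [Polynomial.degree_C_mul hlp, Polynomial.degree_mul, Polynomial.degree_mul,
              Polynomial.degree_C hlq, Polynomial.degree_X_pow, zero_add,
              Polynomial.degree_eq_natDegree hq0, Polynomial.degree_eq_natDegree hp.ne]
            rw [← Nat.cast_add, Nat.sub_add_cancel hE]
          · exact mul_ne_zero (Polynomial.C_ne_zero.2 hlp) hq0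
          · rw [Polynomial.leadingCoeff_mul, Polynomial.leadingCoeff_mul,
              Polynomial.leadingCoeff_mul, Polynomial.leadingCoeff_C, Polynomial.leadingCoeff_C,
              Polynomial.leadingCoeff_X_pow, mul_one, mul_comm]
        rw [Polynomial.degree_C_mul hlp] at h4
        have h5 := Polynomial.natDegree_lt_natDegree h3 h4
        exact ih q'.natDegree (by omega) q' le_rfl h1
    rw [hq', map_sub, map_mul, map_mul, hr, mul_zero, sub_zero, th_C] at h2
    exact (mul_eq_zero.1 h2).resolve_left h0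

end alg

section ext

open Pool.Agent.H4.BKH (ext_hom)

variable {N : ℕ} {k K : Type} [Field k] [IsAlgClosed k] [Field K] [Algebra k K]

/-- specialization of the generic point -/
theorem exists_point {ι : Type} {φ : Fin N → K} {l : K}
    {p : Polynomial (MvPolynomial (Fin N) k)} (hp : MinP φ l p) (y : ι → K)
    (c : MvPolynomial (Fin N) k)
    (hy : ∀ i, ∃ q : Polynomial (MvPolynomial (Fin N) k), q.leadingCoeff = c ∧
      psi φ (y i) q = 0) {u : Fin N → k} {r : k} (h0 : eval u p.leadingCoeff ≠ 0)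
    (hcu : eval u c ≠ 0) (hr : th u r p = 0) :
    ∃ w : ι → k, ∀ f : MvPolynomial (Fin N ⊕ Unit ⊕ ι) k,
      aeval (Sum.elim φ (Sum.elim (fun _ => l) y)) f = 0 →
      eval (Sum.elim u (Sum.elim (fun _ => r) w)) f = 0 := by
  classical
  let A := (psi (k := k) φ l).range
  have hsur : Function.Surjective (psi (k := k) φ l).rangeRestrict :=
    (psi (k := k) φ l).rangeRestrict_surjective
  have hker : ∀ q, (psi (k := k) φ l).rangeRestrict q = 0 → th u r q = 0 := by
    intro q hq
    exact hp.ker h0 hr q.natDegree q le_rfl (congrArg Subtype.val hq)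
  let θ : A →+* k := RingHom.liftOfSurjective (psi (k := k) φ l).rangeRestrict hsur
    ⟨th u r, fun a ha => hker a ha⟩
  have hθ : ∀ q, θ ((psi (k := k) φ l).rangeRestrict q) = th u r q := fun q =>
    RingHom.liftOfRightInverse_comp_apply _ _ (Function.rightInverse_surjInv hsur) _ q
  have hθs : Function.Surjective θ := by
    intro a
    refine ⟨(psi (k := k) φ l).rangeRestrict (Polynomial.C (C a)), ?_⟩
    rw [hθ, th_C, eval_C]
  obtain ⟨Θ, hΘ⟩ := ext_hom (A := A) (B := integralClosure A K)
    (FaithfulSMul.algebraMap_injective A (integralClosure A K)) θ hθs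
  let em : Polynomial (MvPolynomial (Fin N) k) → integralClosure A K := fun q =>
    algebraMap A (integralClosure A K) ((psi (k := k) φ l).rangeRestrict q)
  have hem : ∀ q, ((em q : integralClosure A K) : K) = psi φ l q := fun q => rfl
  have hΘem : ∀ q, Θ (em q) = th u r q := fun q => by
    rw [← hθ]
    exact hΘ _
  have hz : ∀ i, ∃ z : integralClosure A K, (z : K) = aeval φ c * y i := by
    intro i
    obtain ⟨q, hq, hq'⟩ := hy i
    have h1 := RingHom.isIntegralElem_leadingCoeff_mul
      (aeval φ : MvPolynomial (Fin N) k →ₐ[k] K).toRingHom q (y i) hq'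
    have h2 : IsIntegral A (aeval φ c * y i) := by
      obtain ⟨g, hg, hg'⟩ := h1
      rw [hq] at hg'
      refine ⟨g.map ((psi (k := k) φ l).rangeRestrict.comp Polynomial.C), hg.map _, ?_⟩
      rw [Polynomial.eval₂_map]
      have h3 : (algebraMap A K).comp ((psi (k := k) φ l).rangeRestrict.comp Polynomial.C) =
          (aeval φ : MvPolynomial (Fin N) k →ₐ[k] K).toRingHom :=
        RingHom.ext fun a => psi_C φ l a
      rw [h3]
      exact hg'
    exact ⟨⟨_, h2⟩, rfl⟩
  choose z hz using hz
  refine ⟨fun i => Θ (z i) / eval u c, fun f hf => ?_⟩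
  have hcl : ∀ f : MvPolynomial (Fin N ⊕ Unit ⊕ ι) k, ∃ (n : ℕ) (b : integralClosure A K),
      (b : K) = aeval φ c ^ n * aeval (Sum.elim φ (Sum.elim (fun _ => l) y)) f ∧
      Θ b = eval u c ^ n *
        eval (Sum.elim u (Sum.elim (fun _ => r) (fun i => Θ (z i) / eval u c))) f := by
    intro f
    induction f using MvPolynomial.induction_on with
    | C a =>
      refine ⟨0, em (Polynomial.C (C a)), ?_, ?_⟩
      · rw [hem, psi_C, pow_zero, one_mul, aeval_C, aeval_C]
      · rw [hΘem, th_C, pow_zero, one_mul, eval_C, eval_C]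
    | add f g hf hg =>
      obtain ⟨n, b, hb, hb'⟩ := hf
      obtain ⟨m, d, hd, hd'⟩ := hg
      refine ⟨n + m, em (Polynomial.C c) ^ m * b + em (Polynomial.C c) ^ n * d, ?_, ?_⟩
      · push_cast
        rw [hem, psi_C, hb, hd, map_add]
        ring
      · rw [map_add, map_mul, map_mul, map_pow, map_pow, hΘem, th_C, hb', hd', map_add]
        ring
    | mul_X f i hf =>
      obtain ⟨n, b, hb, hb'⟩ := hf
      rcases i with j | ⟨⟩ | i
      · refine ⟨n, b * em (Polynomial.C (X j)), ?_, ?_⟩
        · push_cast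
          rw [hem, psi_C, hb, map_mul, aeval_X, aeval_X, Sum.elim_inl]
          ring
        · rw [map_mul, hΘem, th_C, hb', map_mul, eval_X, eval_X, Sum.elim_inl]
          ring
      · refine ⟨n, b * em Polynomial.X, ?_, ?_⟩
        · push_cast
          rw [hem, psi_X, hb, map_mul, aeval_X, Sum.elim_inr, Sum.elim_inl]
          ring
        · rw [map_mul, hΘem, th_X, hb', map_mul, eval_X, Sum.elim_inr, Sum.elim_inl]
          ring
      · refine ⟨n + 1, b * z i, ?_, ?_⟩
        · push_cast
          rw [hz, hb, map_mul, aeval_X, Sum.elim_inr, Sum.elim_inr]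
          ring
        · rw [map_mul, hb', map_mul, eval_X, Sum.elim_inr, Sum.elim_inr, pow_succ]
          field_simp
  obtain ⟨n, b, hb, hb'⟩ := hcl f
  rw [hf, mul_zero] at hb
  have hb0 : b = 0 := Subtype.ext hb
  rw [hb0, map_zero] at hb'
  exact (mul_eq_zero.1 hb'.symm).resolve_left (pow_ne_zero n hcu)

end ext

end Pool.Agent.H78.TXB
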